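import Pool.Agent.H73.SMD.Stmts

/-!
# Board SMD, row TAN: the disc is tangent to the boundary
-/

set_option autoImplicit false

open Set Filter Topology MeasureTheory Metric Asymptotics

namespace Pool.SMD

open Pool.PHS Pool.LPC

theorem tan_factor (f : ℂ → Cn 2) (m : ℕ) (C κ₀ : ℝ) (hf : AnalyticAt ℂ f 0) (hκ : 0 < κ₀)
    (hb : ∀ u ∈ ball (0 : ℂ) κ₀, ‖f u‖ ≤ C * ‖u‖ ^ m) :
    ∃ g : ℂ → Cn 2, AnalyticAt ℂ g 0 ∧ ∀ᶠ z in 𝓝 (0 : ℂ), f z = z ^ m • g z := by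
  have h1 : (m : ℕ∞) ≤ analyticOrderAt f 0 := by
    by_contra hlt
    rw [not_le] at hlt
    obtain ⟨k, hk⟩ : ∃ k : ℕ, analyticOrderAt f 0 = k :=
      ⟨(analyticOrderAt f 0).toNat, (ENat.natCast_toNat (ne_top_of_lt hlt)).symm⟩
    rw [hk] at hlt
    have hkm : k < m := by exact_mod_cast hlt
    obtain ⟨g, hg, hg0, hgf⟩ := (hf.analyticOrderAt_eq_natCast).1 hk
    have h2 : Tendsto (fun z : ℂ => ‖g z‖) (𝓝[≠] (0 : ℂ)) (𝓝 ‖g 0‖) :=
      (hg.continuousAt.norm.tendsto).mono_left nhdsWithin_le_nhds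
    have h3 : Tendsto (fun z : ℂ => C * ‖z‖ ^ (m - k)) (𝓝[≠] (0 : ℂ)) (𝓝 0) := by
      have h4 : ContinuousAt (fun z : ℂ => C * ‖z‖ ^ (m - k)) 0 := by fun_prop
      have h5 := h4.tendsto
      have h6 : C * ‖(0 : ℂ)‖ ^ (m - k) = 0 := by
        rw [norm_zero, zero_pow (by omega), mul_zero]
      rw [h6] at h5
      exact h5.mono_left nhdsWithin_le_nhds
    have h7 : ∀ᶠ z in 𝓝[≠] (0 : ℂ), ‖g z‖ ≤ C * ‖z‖ ^ (m - k) := by
      have h8 : ∀ᶠ z in 𝓝[≠] (0 : ℂ), z ∈ ball (0 : ℂ) κ₀ :=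
        nhdsWithin_le_nhds (ball_mem_nhds _ hκ)
      have h9 : ∀ᶠ z in 𝓝[≠] (0 : ℂ), f z = (z - 0) ^ k • g z := nhdsWithin_le_nhds hgf
      have h10 : ∀ᶠ z in 𝓝[≠] (0 : ℂ), z ≠ 0 := self_mem_nhdsWithin
      filter_upwards [h8, h9, h10] with z hz1 hz2 hz3
      have h11 := hb z hz1
      rw [hz2, sub_zero, norm_smul, norm_pow] at h11
      have hzp : 0 < ‖z‖ := norm_pos_iff.2 hz3
      have h12 : ‖z‖ ^ m = ‖z‖ ^ k * ‖z‖ ^ (m - k) := by
        rw [← pow_add]; congr 1; omega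
      rw [h12] at h11
      have h13 : ‖z‖ ^ k * ‖g z‖ ≤ ‖z‖ ^ k * (C * ‖z‖ ^ (m - k)) := by
        calc ‖z‖ ^ k * ‖g z‖ ≤ C * (‖z‖ ^ k * ‖z‖ ^ (m - k)) := h11
          _ = ‖z‖ ^ k * (C * ‖z‖ ^ (m - k)) := by ring
      exact le_of_mul_le_mul_left h13 (pow_pos hzp k)
    have h14 : ‖g 0‖ ≤ 0 := le_of_tendsto_of_tendsto h2 h3 h7
    exact hg0 (norm_le_zero_iff.1 h14)
  obtain ⟨g, hg, hgf⟩ := (natCast_le_analyticOrderAt hf).1 h1
  refine ⟨g, hg, ?_⟩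
  filter_upwards [hgf] with z hz
  rw [hz, sub_zero]

theorem TAN_thm : TANStmt := by
  intro r x ψ m C κ₀ hr hx hψ hψ0 hneg hm hκ hb η hη
  have hball : ball (0 : ℂ) 2 ∈ 𝓝 (0 : ℂ) := ball_mem_nhds _ (by norm_num)
  have hψa : AnalyticAt ℂ ψ 0 := hψ.analyticAt hball
  have hfa : AnalyticAt ℂ (fun u => ψ u - x) 0 := hψa.sub analyticAt_const
  obtain ⟨g, hg, hgf⟩ := tan_factor (fun u => ψ u - x) m C κ₀ hfa hκ hb
  set L : Cn 2 →L[ℝ] ℝ := fderiv ℝ r x with hL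
  have hrd : HasFDerivAt r L x := (hr.differentiable one_ne_zero x).hasFDerivAt
  -- the expansion
  have hO : (fun u : ℂ => ψ u - x) =O[𝓝 0] fun u => ‖u‖ ^ m := by
    refine IsBigO.of_bound C ?_
    filter_upwards [ball_mem_nhds (0 : ℂ) hκ] with u hu
    have h1 := hb u hu
    rwa [norm_pow, norm_norm]
  have hψt : Tendsto ψ (𝓝 0) (𝓝 x) := by
    have h1 := hψa.continuousAt.tendsto
    rwa [hψ0] at h1
  have e1 : (fun u : ℂ => r (ψ u) - r x - L (ψ u - x)) =o[𝓝 0] fun u => ‖u‖ ^ m := by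
    have h1 := (hasFDerivAt_iff_isLittleO.1 hrd).comp_tendsto hψt
    exact h1.trans_isBigO hO
  have e2 : (fun u : ℂ => L (u ^ m • g u) - L (u ^ m • g 0)) =o[𝓝 0] fun u => ‖u‖ ^ m := by
    rw [isLittleO_iff]
    intro c hc
    have h1 : Tendsto (fun u : ℂ => ‖L‖ * ‖g u - g 0‖) (𝓝 0) (𝓝 0) := by
      have h2 : ContinuousAt (fun u : ℂ => ‖L‖ * ‖g u - g 0‖) 0 :=
        continuousAt_const.mul ((hg.continuousAt.sub continuousAt_const).norm)
      have h3 := h2.tendsto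
      simpa using h3
    filter_upwards [h1.eventually (gt_mem_nhds hc)] with u hu
    have h4 : L (u ^ m • g u) - L (u ^ m • g 0) = L (u ^ m • (g u - g 0)) := by
      rw [← map_sub, smul_sub]
    rw [h4, norm_pow, norm_norm]
    calc ‖L (u ^ m • (g u - g 0))‖ ≤ ‖L‖ * ‖u ^ m • (g u - g 0)‖ := L.le_opNorm _
      _ = (‖L‖ * ‖g u - g 0‖) * ‖u‖ ^ m := by rw [norm_smul, norm_pow]; ring
      _ ≤ c * ‖u‖ ^ m := mul_le_mul_of_nonneg_right hu.le (by positivity)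
  have e3 : (fun u : ℂ => r (ψ u) - L (u ^ m • g 0)) =o[𝓝 0] fun u => ‖u‖ ^ m := by
    refine (e1.add e2).congr' ?_ EventuallyEq.rfl
    filter_upwards [hgf] with u hu
    have h5 : ψ u - x = u ^ m • g u := hu
    rw [h5, hx]
    ring
  -- the sign
  have s1 : ∀ v : ℂ, L (v ^ m • g 0) ≤ 0 := by
    intro v
    by_contra hpos
    rw [not_le] at hpos
    have hv : v ≠ 0 := by
      rintro rfl
      rw [zero_pow (by omega), zero_smul, map_zero] at hpos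
      exact lt_irrefl _ hpos
    have hvn : 0 < ‖v‖ ^ m := pow_pos (norm_pos_iff.2 hv) m
    set a : ℝ := L (v ^ m • g 0) with ha
    have h6 := (isLittleO_iff.1 e3) (show (0 : ℝ) < a / (2 * ‖v‖ ^ m) by positivity)
    have h7 : Tendsto (fun t : ℝ => (t : ℂ) * v) (𝓝[>] 0) (𝓝 0) := by
      have h8 : ContinuousAt (fun t : ℝ => (t : ℂ) * v) 0 :=
        (Complex.continuous_ofReal.continuousAt).mul continuousAt_const
      have h9 := h8.tendsto
      simp only [Complex.ofReal_zero, zero_mul] at h9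
      exact h9.mono_left nhdsWithin_le_nhds
    have h10 := h7.eventually (h6.and hball)
    have h11 : ∀ᶠ t : ℝ in 𝓝[>] 0, 0 < t := self_mem_nhdsWithin
    obtain ⟨t, ⟨ht1, ht2⟩, ht3⟩ := (h10.and h11).exists
    have h12 := hneg _ ht2
    have h13 : L (((t : ℂ) * v) ^ m • g 0) = t ^ m * a := by
      have h14 : ((t : ℂ) * v) ^ m • g 0 = (t ^ m : ℝ) • (v ^ m • g 0) := by
        rw [mul_pow, mul_smul, ← Complex.ofReal_pow]
        rfl
      rw [h14, map_smul, smul_eq_mul]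
    rw [h13] at ht1
    have h15 : ‖(t : ℂ) * v‖ = t * ‖v‖ := by
      rw [norm_mul, Complex.norm_real, Real.norm_of_nonneg ht3.le]
    rw [norm_pow, norm_norm, h15, mul_pow] at ht1
    have h16 : a / (2 * ‖v‖ ^ m) * (t ^ m * ‖v‖ ^ m) = t ^ m * a / 2 := by
      field_simp
    rw [h16] at ht1
    have h17 := (abs_le.1 (by simpa [Real.norm_eq_abs] using ht1 :
      |r (ψ ((t : ℂ) * v)) - t ^ m * a| ≤ t ^ m * a / 2)).1
    have h18 : 0 < t ^ m * a := mul_pos (pow_pos ht3 m) hpos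
    linarith
  have s2 : ∀ u : ℂ, L (u ^ m • g 0) = 0 := by
    intro u
    refine le_antisymm (s1 u) ?_
    obtain ⟨w, hw⟩ : ∃ w : ℂ, w ^ m = -(u ^ m) := IsAlgClosed.exists_pow_nat_eq _ (by omega)
    have h1 := s1 w
    rw [hw, neg_smul, map_neg] at h1
    linarith
  have h19 := (isLittleO_iff.1 e3) hη
  obtain ⟨κ, hκ0, hκs⟩ := Metric.eventually_nhds_iff_ball.1 h19
  refine ⟨κ, hκ0, fun u hu => ?_⟩
  have h20 := hκs u hu
  rw [s2 u, sub_zero, norm_pow, norm_norm, Real.norm_eq_abs] at h20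
  linarith [(abs_le.1 h20).1]

end Pool.SMD
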